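import Pool.Agent.Zk51.RG.More

/-!
# The laws for the kernels and the cokernels of the regulators: final statements
-/

set_option autoImplicit false
set_option linter.unusedSectionVars false

open CategoryTheory Limits MonoidalCategory Module Filter Topology
open Pool.Agent.Y112.SR Pool.Agent.Y112.KD Pool.Agent.N64.AF Pool.Agent.N645.AFK1
open scoped ENNReal

namespace Pool.Agent.Zk51.RG

universe v u w t x

variable {C : Type u} [Category.{v} C] [Preadditive C] [MonoidalCategory C]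
  [MonoidalPreadditive C] [SymmetricCategory C] [RightRigidCategory C]
  {Λ : Type t} [Field Λ] [CharZero Λ] [Linear Λ C] [MonoidalLinear Λ C]
  {K : Type w} [Field K] [IsAlgClosed K] [Algebra Λ K] {R : SuperRealisation C K}

section Ratio

variable {T : C}

lemma ratio_add {a b : ℕ → ℕ∞} {N M : ℕ∞} (ha : RatioTo Λ T a N) (hb : RatioTo Λ T b M) :
    RatioTo Λ T (fun n => a n + b n) (N + M) := by
  unfold RatioTo at *
  have h1 := ha.add hb
  refine (h1.congr fun n => ?_).trans ?_
  · rw [ENat.toENNReal_add, ENNReal.add_div]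
  · rw [ENat.toENNReal_add]

lemma ratio_unique {a : ℕ → ℕ∞} {N M : ℕ∞} (ha : RatioTo Λ T a N) (hb : RatioTo Λ T a M) :
    N = M := by
  have h := tendsto_nhds_unique ha hb
  exact_mod_cast h

/-- A finitely additive function of sets of integers, finite on the set `M`, is zero on all but
finitely many elements of `M`. -/
lemma card_le {L : Set ℤ → ℕ∞} (hL : ∀ M M', Disjoint M M' → L (M ∪ M') = L M + L M')
    {M : Set ℤ} {k : ℕ} (hk : L M = k) : ∃ S : Finset ℤ, S.card ≤ k ∧
      ∀ m ∈ M, m ∉ S → L {m} = 0 := by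
  classical
  have h1 : ∀ (S : Finset ℤ) (M' : Set ℤ), Disjoint (S : Set ℤ) M' →
      L (S ∪ M') = ∑ m ∈ S, L {m} + L M' := by
    intro S
    induction S using Finset.induction_on with
    | empty =>
      intro M' _
      rw [Finset.coe_empty, Set.empty_union, Finset.sum_empty, zero_add]
    | insert m S hm ih =>
      intro M' hd
      have e1 : ((insert m S : Finset ℤ) : Set ℤ) ∪ M' = {m} ∪ ((S : Set ℤ) ∪ M') := by
        rw [Finset.coe_insert, Set.insert_eq, Set.union_assoc]
      have e2 : Disjoint ({m} : Set ℤ) ((S : Set ℤ) ∪ M') := by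
        rw [Set.disjoint_singleton_left]
        rintro (h | h)
        · exact hm (by simpa using h)
        · exact Set.disjoint_left.1 hd (by simp) h
      have e3 : Disjoint (S : Set ℤ) M' := hd.mono_left (by simp)
      rw [e1, hL _ _ e2, ih _ e3, Finset.sum_insert hm, add_assoc]
  have key : ∀ S : Finset ℤ, (∀ m ∈ S, m ∈ M ∧ L {m} ≠ 0) → S.card ≤ k := by
    intro S hS
    have h2 := h1 S (M \ S) Set.disjoint_sdiff_right
    rw [Set.union_sdiff_cancel (fun m hm => (hS m hm).1), hk] at h2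
    have h3 : (S.card : ℕ∞) ≤ k := by
      calc (S.card : ℕ∞) = ∑ _m ∈ S, (1 : ℕ∞) := by rw [Finset.sum_const, nsmul_one]
        _ ≤ ∑ m ∈ S, L {m} := Finset.sum_le_sum fun m hm =>
            Order.one_le_iff_ne_zero.2 (hS m hm).2
        _ ≤ k := by rw [h2]; exact le_self_add
    exact_mod_cast h3
  have hfinite : {m | m ∈ M ∧ L {m} ≠ 0}.Finite := by
    by_contra hinf
    obtain ⟨S, hS1, hS2⟩ := Set.Infinite.exists_subset_card_eq hinf (k + 1)
    have h9 := key S fun m hm => hS1 hm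
    omega
  refine ⟨hfinite.toFinset, key _ fun m hm => by simpa using hm, fun m hm hm' => ?_⟩
  by_contra h10
  exact hm' (by simpa using ⟨hm, h10⟩)

end Ratio

/-- Compositions of two homologically trivial morphisms and `k` numerically trivial ones between
powers of `T`. -/
def HomHomNum (R : SuperRealisation C K) (T : C) (k : ℕ) {Y Z : C} (f : Y ⟶ Z) : Prop :=
  ∃ (b c : ℕ) (g : Y ⟶ tp T b) (g' : tp T b ⟶ tp T c) (l : tp T c ⟶ Z), R.H.map g = 0 ∧
    R.H.map g' = 0 ∧ NumPow T k l ∧ f = g ≫ g' ≫ l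

lemma HomHomNum.comp {T : C} {k : ℕ} {W Y Z : C} (e : W ⟶ Y) {f : Y ⟶ Z}
    (hf : HomHomNum R T k f) : HomHomNum R T k (e ≫ f) := by
  obtain ⟨b, c, g, g', l, h1, h2, h3, rfl⟩ := hf
  exact ⟨b, c, e ≫ g, g', l, by rw [Functor.map_comp, h1, comp_zero], h2, h3,
    (Category.assoc _ _ _).symm⟩

lemma HomHomNum.whisker (hR : IsReal Λ R) {T : C} {k : ℕ} {Y Z : C} {f : Y ⟶ Z}
    (hf : HomHomNum R T k f) : HomHomNum R T k (f ▷ T) := by
  obtain ⟨b, c, g, g', l, h1, h2, h3, rfl⟩ := hf
  exact ⟨b + 1, c + 1, g ▷ T, g' ▷ T, l ▷ T, NK.map_whiskerRight_zero R h1 T,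
    NK.map_whiskerRight_zero R h2 T, numPow_whisker hR k h3, by
      rw [comp_whiskerRight, comp_whiskerRight]⟩

lemma homHomNum_vanish (hR : IsReal Λ R) {T : C} [ExactPairing T T] {N : ℕ}
    (h0 : ∀ (b : ℕ) (f : tp T 0 ⟶ tp T b), HomHomNum R T N f → f = 0) (a : ℕ) :
    ∀ (b : ℕ) (f : tp T a ⟶ tp T b), HomHomNum R T N f → f = 0 := by
  induction a with
  | zero => exact h0
  | succ a ih =>
    intro b f hf
    have h1 : cur Λ T (tp T a) (tp T b) f = 0 := by
      apply ih (b + 1)
      rw [cur_eq]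
      exact HomHomNum.comp _ (HomHomNum.whisker hR hf)
    exact (LinearEquiv.map_eq_zero_iff _).1 h1

/-- Homologically trivial self-correspondences of the powers of `T` have `k`-th power zero. -/
def HomNil (R : SuperRealisation C K) (T : C) (k : ℕ) : Prop :=
  ∀ (n : ℕ) (y : End (tp T n)), R.H.map (y : tp T n ⟶ tp T n) = 0 → y ^ k = 0

namespace Regulators

section Def

variable (D : Regulators.{v, u, t, x} Λ C) (T : C)

/-- Compositions of `k` numerically trivial correspondences between powers of `T` act as zero on the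
kernels of the regulators. -/
def KilledKer (M : Set ℤ) (k : ℕ) : Prop :=
  ∀ (a b : ℕ) (f : tp T a ⟶ tp T b), NumPow T k f → ∀ x ∈ D.ker (tp T a) M, D.mot.act f x = 0

/-- Compositions of `k` numerically trivial correspondences between powers of `T` map the semistable
classes to the image of the regulators. -/
def KilledCok (M : Set ℤ) (k : ℕ) : Prop :=
  ∀ (a b : ℕ) (f : tp T a ⟶ tp T b), NumPow T k f →
    (D.stM (tp T a) M).map (D.gal.act f) ≤ D.img (tp T b) M

/-- The regulators of all powers are injective for all but `k` values `2 j - i` in `M`. -/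
def InjBut (M : Set ℤ) (k : ℕ) : Prop :=
  ∃ S : Finset ℤ, S.card ≤ k ∧ ∀ m ∈ M, m ∉ S → ∀ n, D.Inj (tp T n) {m}

/-- The images of the regulators of all powers are the groups of semistable classes for all but `k`
values `2 j - i` in `M`. -/
def OntoBut (M : Set ℤ) (k : ℕ) : Prop :=
  ∃ S : Finset ℤ, S.card ≤ k ∧ ∀ m ∈ M, m ∉ S → ∀ n, D.Onto (tp T n) {m}

end Def

variable (R) (D : Regulators.{v, u, t, x} Λ C) (T : C)

/-- The law for the kernels of the regulators of the products of `S` with the powers of `T` in the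
degrees `(i, j)` with `2 j - i` in `M`. -/
def KerLaw (M : Set ℤ) (N : ℕ∞) : Prop :=
  RatioTo Λ T (fun n => D.kerD (tp T n) M) N ∧
    (N = 0 ↔ ∀ n, D.Inj (tp T n) M) ∧
    (∀ k : ℕ, N = k → IsMotivic Λ R T k (fun n => D.kerD (tp T n) M) ∧ D.KilledKer T M k ∧
      (IsCycles R D → 0 ∈ M → HomNil R T (k + 2)) ∧ D.InjBut T M k) ∧
    ((∀ n, SumOf (fun Z => D.Inj Z M) (tp T n)) → N = 0 ∨ N = ⊤)

/-- The law for the cokernels of the regulators of the products of `S` with the powers of `T` in the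
degrees `(i, j)` with `2 j - i` in `M`. -/
def CokLaw (M : Set ℤ) (N : ℕ∞) : Prop :=
  RatioTo Λ T (fun n => D.cokD (tp T n) M) N ∧
    (N = 0 ↔ ∀ n, D.Onto (tp T n) M) ∧
    (∀ k : ℕ, N = k → IsMotivic Λ R T k (fun n => D.cokD (tp T n) M) ∧ D.KilledCok T M k ∧
      D.OntoBut T M k) ∧
    ((∀ n, SumOf (fun Z => D.Onto Z M) (tp T n)) → N = 0 ∨ N = ⊤)

/-- One inequality for one power of `T` is sufficient for the power with exponent `m`. -/
def Criterion (M : Set ℤ) : Prop :=
  ∀ m n : ℕ, 128 * (m + 1) ^ 2 * bt R T ^ (2 * m + 6) ≤ n →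
    (2 * D.kerD (tp T n) M < numRank Λ (tp T n) → D.Inj (tp T m) M) ∧
      (2 * D.cokD (tp T n) M < numRank Λ (tp T n) → D.Onto (tp T m) M)

/-- The sum of the functions for disjoint sets is the function for the union. -/
def IsAdditive (N : Set ℤ → ℕ∞) : Prop := ∀ M M', Disjoint M M' → N (M ∪ M') = N M + N M'

namespace IsRegulators

variable {R D T}

/-- The nilpotence of the homologically trivial correspondences. -/
lemma nilpotent (hR : IsReal Λ R) (hD : D.IsRegulators R) (hc : IsCycles R D)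
    [ExactPairing T T] {M : Set ℤ} (hM : 0 ∈ M) {k : ℕ} (hk : D.KilledKer T M k) :
    HomNil R T (k + 2) := by
  intro n y hy
  have h0 : ∀ (b : ℕ) (f : tp T 0 ⟶ tp T b), HomHomNum R T k f → f = 0 := by
    rintro d f ⟨b, c, g, g', l, h1, h2, h3, rfl⟩
    have hβ : R.H.map (g ≫ g') = 0 := by rw [Functor.map_comp, h2, comp_zero]
    have hγ : R.H.map (g ≫ g' ≫ l) = 0 := by rw [Functor.map_comp, h1, zero_comp]
    have e1 : D.cyc _ (g ≫ g') = D.mot.act g' (D.cyc _ g) := (hc _ g h1).2.2 _ g'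
    have e2 : D.cyc _ (g ≫ g' ≫ l) = D.mot.act l (D.cyc _ (g ≫ g')) := by
      rw [← Category.assoc]
      exact (hc _ (g ≫ g') hβ).2.2 _ l
    have e3 : D.cyc _ (g ≫ g') ∈ D.ker (tp T c) M := by
      constructor
      · exact sumM_mono (D.H (tp T c)) (Set.singleton_subset_iff.2 hM) (hc _ _ hβ).1
      · change D.r _ (D.cyc _ (g ≫ g')) = 0
        rw [e1, hD.nat_apply, hD.hom _ _ g' h2, LinearMap.zero_apply]
    exact (hc _ _ hγ).2.1 (e2.trans (hk c d l h3 _ e3))
  have h1 := homHomNum_vanish hR h0 n n ((y ^ (k + 2) : End (tp T n)) : tp T n ⟶ tp T n)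
    ⟨n, n, y, y, ((y ^ k : End (tp T n)) : tp T n ⟶ tp T n), hy, hy,
      numPow_pow y (numTriv_of_map hR hy) k, by
        rw [pow_add, pow_two]
        simp only [End.mul_def, Category.assoc]⟩
  exact h1

/-- **The law for the kernels.** -/
theorem kerLaw [ExactPairing T T] (h : IsPow Λ R T) (hD : D.IsRegulators R) :
    ∃ N : Set ℤ → ℕ∞, IsAdditive N ∧ ∀ M, D.KerLaw R T M (N M) := by
  choose N h1 h2 h3 h4 using fun M => hD.ker_law h M
  have hadd : ∀ M M', Disjoint M M' → N (M ∪ M') = N M + N M' := by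
    intro M M' hd
    refine ratio_unique (h1 (M ∪ M')) ?_
    have e : (fun n => D.kerD (tp T n) (M ∪ M')) =
        fun n => D.kerD (tp T n) M + D.kerD (tp T n) M' := by
      funext n
      exact hD.kerD_union _ hd
    rw [e]
    exact ratio_add (h1 M) (h1 M')
  refine ⟨N, hadd, fun M => ⟨h1 M, h2 M, fun k hk => ?_, fun hs => ?_⟩⟩
  · obtain ⟨h5, h6⟩ := h3 M k hk
    refine ⟨h5, h6, fun hc hM => hD.nilpotent h.real hc hM h6, ?_⟩
    obtain ⟨S, hS1, hS2⟩ := card_le hadd hk
    exact ⟨S, hS1, fun m hm hm' => (h2 {m}).1 (hS2 m hm hm')⟩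
  · by_cases hN : N M = ⊤
    · exact Or.inr hN
    · left
      rw [h2 M]
      intro n
      rw [← hD.ker_iff]
      refine zero_of_sumOf (hD.kerF M) ?_ (h4 M hN n)
      obtain ⟨s, Z, α, β, hZ, hn⟩ := hs n
      exact ⟨s, Z, α, β, fun j => (hD.ker_iff _ M).2 (hZ j), hn⟩

/-- **The law for the cokernels.** -/
theorem cokLaw [ExactPairing T T] (h : IsPow Λ R T) (hD : D.IsRegulators R) :
    ∃ N : Set ℤ → ℕ∞, IsAdditive N ∧ ∀ M, D.CokLaw R T M (N M) := by
  choose N h1 h2 h3 h4 using fun M => hD.cok_law h M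
  have hadd : ∀ M M', Disjoint M M' → N (M ∪ M') = N M + N M' := by
    intro M M' hd
    refine ratio_unique (h1 (M ∪ M')) ?_
    have e : (fun n => D.cokD (tp T n) (M ∪ M')) =
        fun n => D.cokD (tp T n) M + D.cokD (tp T n) M' := by
      funext n
      exact hD.cokD_union _ hd
    rw [e]
    exact ratio_add (h1 M) (h1 M')
  refine ⟨N, hadd, fun M => ⟨h1 M, h2 M, fun k hk => ?_, fun hs => ?_⟩⟩
  · obtain ⟨h5, h6⟩ := h3 M k hk
    refine ⟨h5, h6, ?_⟩
    obtain ⟨S, hS1, hS2⟩ := card_le hadd hk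
    exact ⟨S, hS1, fun m hm hm' => (h2 {m}).1 (hS2 m hm hm')⟩
  · by_cases hN : N M = ⊤
    · exact Or.inr hN
    · left
      rw [h2 M]
      intro n
      rw [← hD.cok_iff]
      refine zero_of_sumOf (hD.cokF M) ?_ (h4 M hN n)
      obtain ⟨s, Z, α, β, hZ, hn⟩ := hs n
      exact ⟨s, Z, α, β, fun j => (hD.cok_iff _ M).2 (hZ j), hn⟩

theorem criterion [ExactPairing T T] (h : IsPow Λ R T) (hD : D.IsRegulators R)
    (M : Set ℤ) : D.Criterion R T M :=
  fun _ _ hn => hD.explicit h M hn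

end IsRegulators

end Regulators

end Pool.Agent.Zk51.RG
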