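import Pool.Agent.N64.AF.M6
import Pool.Agent.Zk51.NK.Hom

/-!
# The `ℓ`-adic regulators on the powers of a variety over a number field: definitions
-/

set_option autoImplicit false

open CategoryTheory Limits MonoidalCategory Module Filter Topology
open Pool.Agent.Y112.SR Pool.Agent.Y112.KD Pool.Agent.N64.AF
open scoped ENNReal

namespace Pool.Agent.Zk51.RG

universe v u w t x

section Fun

variable (Λ : Type t) [Field Λ] (C : Type u) [Category.{v} C] [Preadditive C] [Linear Λ C]

/-- An additive functor to vector spaces over `Λ`: correspondences act on the vector spaces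
`Grp Z`, `Z` an object of `C`. -/
structure AddFun where
  F : C ⥤ ModuleCat.{x} Λ
  [additive : F.Additive]
  [linear : F.Linear Λ]

attribute [instance] AddFun.additive AddFun.linear

variable {Λ C}

/-- The vector space of the object `Z`. -/
abbrev AddFun.Grp (F : AddFun.{v, u, t, x} Λ C) (Z : C) : Type x := F.F.obj Z

instance AddFun.grp (F : AddFun.{v, u, t, x} Λ C) (Z : C) : AddCommGroup (F.Grp Z) :=
  (F.F.obj Z).isAddCommGroup

instance AddFun.mod (F : AddFun.{v, u, t, x} Λ C) (Z : C) : Module Λ (F.Grp Z) :=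
  (F.F.obj Z).isModule

/-- The action of a correspondence. -/
abbrev AddFun.act (F : AddFun.{v, u, t, x} Λ C) {Y Z : C} (f : Y ⟶ Z) : F.Grp Y →ₗ[Λ] F.Grp Z :=
  (F.F.map f).hom

/-- The subspaces of `Grp Z`. -/
abbrev AddFun.Sub (F : AddFun.{v, u, t, x} Λ C) (Z : C) : Type x := Submodule Λ (F.Grp Z)

end Fun

section Grade

variable {Λ : Type t} [Field Λ] {V : Type x} [AddCommGroup V] [Module Λ V]

/-- The sum of the pieces `H i j` with `2 j - i` in `M`. -/
def sumM (H : ℤ → ℤ → Submodule Λ V) (M : Set ℤ) : Submodule Λ V :=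
  ⨆ p : {p : ℤ × ℤ // 2 * p.2 - p.1 ∈ M}, H p.1.1 p.1.2

/-- The space is the direct sum of the pieces. -/
def IsSum (H : ℤ → ℤ → Submodule Λ V) : Prop :=
  DirectSum.IsInternal fun p : ℤ × ℤ => H p.1 p.2

end Grade

section Data

variable (Λ : Type t) [Field Λ] (C : Type u) [Category.{v} C] [Preadditive C] [Linear Λ C]
  [MonoidalCategory C]

/-- The `ℓ`-adic regulators of the products of a fixed smooth projective variety `S` over the number
field `k` (for instance the point) with all smooth projective varieties `Z` over `k`. `Λ` is `ℚ_ℓ`, and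
`C` is the category of the smooth projective varieties over `k` with the groups `CH^*(X × Y) ⊗ ℚ_ℓ`
(all codimensions) as morphisms. -/
structure Regulators where
  /-- `Z ↦ ⨁ H^i_M(S × Z, ℚ(j))_hom ⊗ ℚ_ℓ` -/
  mot : AddFun.{v, u, t, x} Λ C
  /-- `Z ↦ ⨁ H¹(G_k, H^{i-1}(S × Z, ℚ_ℓ(j)))`, with the cohomology over `k̄` -/
  gal : AddFun.{v, u, t, x} Λ C
  /-- the subspace `H^i_M(S × Z, ℚ(j))_hom ⊗ ℚ_ℓ` -/
  H : ∀ Z : C, ℤ → ℤ → mot.Sub Z
  /-- the subspace `H¹(G_k, H^{i-1}(S × Z, ℚ_ℓ(j)))` -/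
  E : ∀ Z : C, ℤ → ℤ → gal.Sub Z
  /-- the subspace `H¹_st(G_k, H^{i-1}(S × Z, ℚ_ℓ(j)))` of the semistable classes -/
  st : ∀ Z : C, ℤ → ℤ → gal.Sub Z
  /-- the regulators `r_ℓ`, on the direct sum of all the groups -/
  r : ∀ Z : C, mot.Grp Z →ₗ[Λ] gal.Grp Z
  /-- if `S` is the point: the class in `⨁ H^{2j}_M(Z, ℚ(j))_hom ⊗ ℚ_ℓ` of a homologically trivial
  cycle on `Z` (and zero otherwise) -/
  cyc : ∀ Z : C, (𝟙_ C ⟶ Z) → mot.Grp Z

variable {Λ C}

namespace Regulators

variable (D : Regulators.{v, u, t, x} Λ C)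

/-- The direct sum of the groups `H^i_M(S × Z, ℚ(j))_hom ⊗ ℚ_ℓ` with `2 j - i` in the set `M`. -/
def HM (Z : C) (M : Set ℤ) : D.mot.Sub Z := sumM (D.H Z) M

/-- The direct sum of the groups `H¹_st(G_k, H^{i-1}(S × Z, ℚ_ℓ(j)))` with `2 j - i` in `M`. -/
def stM (Z : C) (M : Set ℤ) : D.gal.Sub Z := sumM (D.st Z) M

/-- Semistable classes are classes, and the regulators of elements of `H^i_M(S × Z, ℚ(j))_hom` are
semistable classes in `H¹(G_k, H^{i-1}(S × Z, ℚ_ℓ(j)))`. -/
def Semistable (Z : C) : Prop :=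
  ∀ i j, D.st Z i j ≤ D.E Z i j ∧ (D.H Z i j).map (D.r Z) ≤ D.st Z i j

/-- The source and the target are the direct sums of their subspaces; the regulators have
semistable values. -/
structure IsGraded (Z : C) : Prop where
  mot : IsSum (D.H Z)
  gal : IsSum (D.E Z)
  semistable : D.Semistable Z

/-- Correspondences act on `H^i_M(S × Z, ℚ(j))_hom ⊗ ℚ_ℓ` without changing `2 j - i`. -/
def ActMot : Prop := ∀ (m : ℤ) (Y Z : C) (f : Y ⟶ Z), (D.HM Y {m}).map (D.mot.act f) ≤ D.HM Z {m}

/-- Correspondences act on semistable classes without changing `2 j - i`. -/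
def ActSt : Prop := ∀ (m : ℤ) (Y Z : C) (f : Y ⟶ Z), (D.stM Y {m}).map (D.gal.act f) ≤ D.stM Z {m}

/-- Regulators are compatible with the action of correspondences. -/
def Natural : Prop := ∀ (Y Z : C) (f : Y ⟶ Z), D.r Z ∘ₗ D.mot.act f = D.gal.act f ∘ₗ D.r Y

/-- The regulators of `S × Z` are injective in all degrees `(i, j)` with `2 j - i` in `M`. -/
def Inj (Z : C) (M : Set ℤ) : Prop :=
  ∀ i j : ℤ, 2 * j - i ∈ M → ∀ x ∈ D.H Z i j, D.r Z x = 0 → x = 0

/-- The image of the regulator of `S × Z` is the group of all semistable classes, in all degrees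
`(i, j)` with `2 j - i` in `M`. -/
def Onto (Z : C) (M : Set ℤ) : Prop :=
  ∀ i j : ℤ, 2 * j - i ∈ M → (D.H Z i j).map (D.r Z) = D.st Z i j

/-- The kernel of the regulators in the degrees with `2 j - i` in `M`. -/
def ker (Z : C) (M : Set ℤ) : D.mot.Sub Z := D.HM Z M ⊓ LinearMap.ker (D.r Z)

/-- The image of the regulators in the degrees with `2 j - i` in `M`. -/
def img (Z : C) (M : Set ℤ) : D.gal.Sub Z := (D.HM Z M).map (D.r Z)

/-- The dimension of the kernel. -/
noncomputable def kerD (Z : C) (M : Set ℤ) : ℕ∞ := dimE Λ (D.ker Z M)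

end Regulators

/-- The dimension of `A / (A ∩ B)`. -/
noncomputable def dimQuot {Λ : Type t} [Field Λ] {V : Type x} [AddCommGroup V] [Module Λ V]
    (A B : Submodule Λ V) : ℕ∞ :=
  dimE Λ (A ⧸ B.comap A.subtype)

/-- The dimension of the cokernel: the semistable classes modulo the image of the regulators. -/
noncomputable def Regulators.cokD (D : Regulators.{v, u, t, x} Λ C) (Z : C) (M : Set ℤ) : ℕ∞ :=
  dimQuot (D.stM Z M) (D.img Z M)

end Data

variable {C : Type u} [Category.{v} C] [Preadditive C] [MonoidalCategory C]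
  [SymmetricCategory C] {Λ : Type t} [Field Λ] [Linear Λ C]
  {K : Type w} [Field K]

namespace Regulators

/-- Homologically trivial correspondences act as zero on the Galois cohomology of the cohomology. -/
def HomZero (R : SuperRealisation C K) (D : Regulators.{v, u, t, x} Λ C) : Prop :=
  ∀ (Y Z : C) (f : Y ⟶ Z), R.H.map f = 0 → D.gal.act f = 0

/-- (If `S` is the point.) The classes of homologically trivial cycles `α` on `Y` are in the groups
`H^{2j}_M(Y, ℚ(j))_hom ⊗ ℚ_ℓ`, they are zero only if `α = 0`, and they are compatible with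
correspondences. -/
def IsCycles (R : SuperRealisation C K) (D : Regulators.{v, u, t, x} Λ C) : Prop :=
  ∀ (Y : C) (α : 𝟙_ C ⟶ Y), R.H.map α = 0 → D.cyc Y α ∈ D.HM Y {0} ∧
    (D.cyc Y α = 0 → α = 0) ∧ ∀ (Z : C) (f : Y ⟶ Z), D.cyc Z (α ≫ f) = D.mot.act f (D.cyc Y α)

/-- The known properties of the regulators. `R` is the `ℓ`-adic cohomology with coefficients extended
to an algebraic closure `K` of `ℚ_ℓ`. -/
structure IsRegulators (R : SuperRealisation C K) (D : Regulators.{v, u, t, x} Λ C) : Prop where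
  graded : ∀ Z : C, D.IsGraded Z
  mot : D.ActMot
  st : D.ActSt
  nat : D.Natural
  hom : HomZero R D

end Regulators

end Pool.Agent.Zk51.RG
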