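import Pool.Agent.Zk51.RG.Defs

/-!
# Graded linear maps and sums of pieces
-/

set_option autoImplicit false

open CategoryTheory Limits MonoidalCategory Module Filter Topology
open scoped ENNReal

namespace Pool.Agent.Zk51.RG

universe x y t

section Grade

variable {Λ : Type t} [Field Λ] {V : Type x} [AddCommGroup V] [Module Λ V]
  {W : Type y} [AddCommGroup W] [Module Λ W]

lemma le_sumM (H : ℤ → ℤ → Submodule Λ V) {M : Set ℤ} {i j : ℤ} (h : 2 * j - i ∈ M) :
    H i j ≤ sumM H M :=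
  le_iSup (fun p : {p : ℤ × ℤ // 2 * p.2 - p.1 ∈ M} => H p.1.1 p.1.2) ⟨(i, j), h⟩

lemma sumM_le {H : ℤ → ℤ → Submodule Λ V} {M : Set ℤ} {S : Submodule Λ V}
    (h : ∀ i j, 2 * j - i ∈ M → H i j ≤ S) : sumM H M ≤ S :=
  iSup_le fun p => h _ _ p.2

lemma sumM_mono (H : ℤ → ℤ → Submodule Λ V) {M M' : Set ℤ} (h : M ⊆ M') :
    sumM H M ≤ sumM H M' :=
  sumM_le fun _ _ hm => le_sumM H (h hm)

/-- A linear map which respects the sums for all single values respects all the sums. -/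
lemma sumM_map {H : ℤ → ℤ → Submodule Λ V} {H' : ℤ → ℤ → Submodule Λ W} {f : V →ₗ[Λ] W}
    (h : ∀ m : ℤ, ∀ x ∈ sumM H {m}, f x ∈ sumM H' {m}) (M : Set ℤ) :
    ∀ x ∈ sumM H M, f x ∈ sumM H' M := by
  have h1 : sumM H M ≤ (sumM H' M).comap f := by
    refine sumM_le fun i j hm x hx => ?_
    exact sumM_mono H' (Set.singleton_subset_iff.2 hm) (h _ x (le_sumM H (Set.mem_singleton _) hx))
  exact h1

/-- The decomposition of an element into its components. -/
lemma exists_dec {H : ℤ → ℤ → Submodule Λ V} {M : Set ℤ} {x : V} (hx : x ∈ sumM H M) :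
    ∃ f : {p : ℤ × ℤ // 2 * p.2 - p.1 ∈ M} →₀ V, (∀ p, f p ∈ H p.1.1 p.1.2) ∧
      ∑ p ∈ f.support, f p = x := by
  obtain ⟨f, h1, h2⟩ := (Submodule.mem_iSup_iff_exists_finsupp _ _).1 hx
  exact ⟨f, h1, h2⟩

variable {H : ℤ → ℤ → Submodule Λ V} {E st : ℤ → ℤ → Submodule Λ W} {r : V →ₗ[Λ] W}

/-- The independence of the pieces of the target. -/
lemma indep_zero (hE : iSupIndep fun p : ℤ × ℤ => E p.1 p.2) {M : Set ℤ}
    (s : Finset {p : ℤ × ℤ // 2 * p.2 - p.1 ∈ M}) (v : {p : ℤ × ℤ // 2 * p.2 - p.1 ∈ M} → W)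
    (hv : ∀ p ∈ s, v p ∈ E p.1.1 p.1.2) (h0 : ∑ p ∈ s, v p = 0) : ∀ p ∈ s, v p = 0 := by
  have h1 := hE.comp (f := fun p : {p : ℤ × ℤ // 2 * p.2 - p.1 ∈ M} => p.1)
    Subtype.val_injective
  exact (iSupIndep_iff_finsetSum_eq_zero_imp_eq_zero _).1 h1 s v hv h0

/-- The kernel is trivial if and only if the maps of the pieces are injective. -/
lemma ker_iff (hE : iSupIndep fun p : ℤ × ℤ => E p.1 p.2) (hle : ∀ i j, st i j ≤ E i j)
    (hr : ∀ i j, ∀ x ∈ H i j, r x ∈ st i j) (M : Set ℤ) :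
    sumM H M ⊓ LinearMap.ker r = ⊥ ↔
      ∀ i j : ℤ, 2 * j - i ∈ M → ∀ x ∈ H i j, r x = 0 → x = 0 := by
  constructor
  · intro h i j hm x hx hrx
    have h1 : x ∈ sumM H M ⊓ LinearMap.ker r := ⟨le_sumM H hm hx, hrx⟩
    rw [h] at h1
    exact h1
  · intro h
    rw [eq_bot_iff]
    rintro x ⟨hx, hrx⟩
    obtain ⟨f, h1, h2⟩ := exists_dec hx
    have h3 : ∑ p ∈ f.support, r (f p) = 0 := by
      rw [← map_sum, h2]
      exact hrx
    have h4 := indep_zero hE f.support (fun p => r (f p))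
      (fun p _ => hle _ _ (hr _ _ _ (h1 p))) h3
    change x = 0
    rw [← h2]
    exact Finset.sum_eq_zero fun p hp => h _ _ p.2 _ (h1 p) (h4 p hp)

/-- The cokernel is trivial if and only if the maps of the pieces are onto. -/
lemma cok_iff (hE : iSupIndep fun p : ℤ × ℤ => E p.1 p.2) (hle : ∀ i j, st i j ≤ E i j)
    (hr : ∀ i j, ∀ x ∈ H i j, r x ∈ st i j) (M : Set ℤ) :
    sumM st M ≤ (sumM H M).map r ↔
      ∀ i j : ℤ, 2 * j - i ∈ M → ∀ y ∈ st i j, ∃ x ∈ H i j, r x = y := by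
  classical
  constructor
  · intro h i j hm y hy
    obtain ⟨x, hx, rfl⟩ := h (le_sumM st hm hy)
    obtain ⟨f, h1, h2⟩ := exists_dec hx
    set q : {p : ℤ × ℤ // 2 * p.2 - p.1 ∈ M} := ⟨(i, j), hm⟩ with hq
    refine ⟨f q, h1 q, ?_⟩
    -- compare the components
    let v : {p : ℤ × ℤ // 2 * p.2 - p.1 ∈ M} → W := fun p =>
      r (f p) - if p = q then r x else 0
    have h3 : ∑ p ∈ insert q f.support, v p = 0 := by
      have e1 : ∑ p ∈ insert q f.support, r (f p) = r x := by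
        rw [← h2, map_sum]
        refine (Finset.sum_subset (Finset.subset_insert _ _) ?_).symm
        intro p _ hp
        rw [Finsupp.notMem_support_iff.1 hp, map_zero]
      have e2 : ∑ p ∈ insert q f.support, (if p = q then r x else 0) = r x := by
        rw [Finset.sum_ite_eq' (insert q f.support) q (fun _ => r x)]
        simp
      change ∑ p ∈ insert q f.support, (r (f p) - if p = q then r x else 0) = 0
      rw [Finset.sum_sub_distrib, e1, e2, sub_self]
    have h4 := indep_zero hE (insert q f.support) v (fun p _ => by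
      refine Submodule.sub_mem _ (hle _ _ (hr _ _ _ (h1 p))) ?_
      split_ifs with hp
      · subst hp
        exact hle _ _ hy
      · exact Submodule.zero_mem _) h3 q (Finset.mem_insert_self _ _)
    have h5 : r (f q) - r x = 0 := by
      have e : v q = r (f q) - r x := by
        change (r (f q) - if q = q then r x else 0) = _
        rw [if_pos rfl]
      rw [← e]
      exact h4
    exact sub_eq_zero.1 h5
  · intro h
    refine sumM_le fun i j hm y hy => ?_
    obtain ⟨x, hx, rfl⟩ := h i j hm y hy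
    exact ⟨x, le_sumM H hm hx, rfl⟩

end Grade

end Pool.Agent.Zk51.RG
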