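import Pool.Agent.Zk51.RG.Grade

/-!
# The law for the kernels and the cokernels of the regulators
-/

set_option autoImplicit false
set_option linter.unusedSectionVars false

open CategoryTheory Limits MonoidalCategory Module Filter Topology
open Pool.Agent.Y112.SR Pool.Agent.Y112.KD Pool.Agent.N64.AF
open scoped ENNReal

namespace Pool.Agent.Zk51.RG

universe v u w t x

variable {C : Type u} [Category.{v} C] [Preadditive C] [MonoidalCategory C]
  [MonoidalPreadditive C] [SymmetricCategory C] [RightRigidCategory C]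
  {Λ : Type t} [Field Λ] [CharZero Λ] [Linear Λ C] [MonoidalLinear Λ C]
  {K : Type w} [Field K] [IsAlgClosed K] [Algebra Λ K] {R : SuperRealisation C K}

/-- The sequence `a` is the sequence of the dimensions of the spaces `⨁ Hom(M_i, h(X ^ n))` of
morphisms modulo numerical equivalence, for finitely many numerical motives `M_i` (direct summands of
numerical motives of powers of `X`) with sum of the ranks `k`. -/
def IsMotivic (Λ : Type t) [Field Λ] [Linear Λ C] [MonoidalLinear Λ C] (R : SuperRealisation C K)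
    (T : C) (k : ℕ) (a : ℕ → ℕ∞) : Prop :=
  ∃ (ι : Type) (_ : Fintype ι) (m r : ι → ℕ) (e : ∀ i, tp T (m i) ⟶ tp T (m i)),
    (∀ i, NumIdem (e i) ∧ IsRk R (e i) (r i) ∧ 0 < r i) ∧ ∑ i, r i = k ∧
      ∀ n, a n = ((∑ i, nr Λ (e i) (𝟙 (tp T n)) : ℕ) : ℕ∞)

/-- The law for an additive functor, with the structure theorem. -/
theorem full_law {T : C} [ExactPairing T T] (h : IsPow Λ R T) (F : C ⥤ ModuleCat.{x} Λ)
    [F.Additive] [F.Linear Λ] : ∃ N : ℕ∞, RatioTo Λ T (fun n => dimE Λ (F.obj (tp T n))) N ∧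
      (N = 0 ↔ ∀ n, Subsingleton (F.obj (tp T n))) ∧
      (∀ k : ℕ, N = k → IsMotivic Λ R T k (fun n => dimE Λ (F.obj (tp T n))) ∧
        ∀ (a b : ℕ) (f : tp T a ⟶ tp T b), NumPow T k f → F.map f = 0) ∧
      (N ≠ ⊤ → ∀ n, ∀ y : tp T n ⟶ tp T n, NumTriv y →
        IsNilpotent ((F.map y).hom : Module.End Λ (F.obj (tp T n)))) := by
  obtain ⟨N, h1, h2, h3⟩ := law h F
  refine ⟨N, h1, h2, ?_, fun hN n => ((h3 hN).1 n).2.2⟩
  rintro k rfl
  obtain ⟨⟨ι, i1, m, r, e, h5, h6, h7⟩, h8⟩ := structure_thm h F (N := k) h1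
  refine ⟨⟨ι, i1, m, r, e, h5, h6, fun n => ?_⟩, h8⟩
  have := ((h3 (ENat.natCast_ne_top k)).1 n).1
  change dimE Λ _ = _
  rw [dimE_eq, h7 n]

namespace Regulators

variable {D : Regulators.{v, u, t, x} Λ C}

namespace IsRegulators

lemma HM_act (hD : D.IsRegulators R) (M : Set ℤ) {Y Z : C} (f : Y ⟶ Z) :
    ∀ x ∈ D.HM Y M, D.mot.act f x ∈ D.HM Z M :=
  sumM_map (f := D.mot.act f) (fun m x hx => hD.mot m Y Z f ⟨x, hx, rfl⟩) M

lemma stM_act (hD : D.IsRegulators R) (M : Set ℤ) {Y Z : C} (f : Y ⟶ Z) :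
    ∀ x ∈ D.stM Y M, D.gal.act f x ∈ D.stM Z M :=
  sumM_map (f := D.gal.act f) (fun m x hx => hD.st m Y Z f ⟨x, hx, rfl⟩) M

lemma nat_apply (hD : D.IsRegulators R) {Y Z : C} (f : Y ⟶ Z) (x : D.mot.Grp Y) :
    D.r Z (D.mot.act f x) = D.gal.act f (D.r Y x) :=
  congrArg (fun q : D.mot.Grp Y →ₗ[Λ] D.gal.Grp Z => q x) (hD.nat Y Z f)

lemma r_mem (hD : D.IsRegulators R) (Z : C) :
    ∀ i j, ∀ x ∈ D.H Z i j, D.r Z x ∈ D.st Z i j :=
  fun i j x hx => ((hD.graded Z).semistable i j).2 ⟨x, hx, rfl⟩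

lemma st_le (hD : D.IsRegulators R) (Z : C) : ∀ i j, D.st Z i j ≤ D.E Z i j :=
  fun i j => ((hD.graded Z).semistable i j).1

lemma indep (hD : D.IsRegulators R) (Z : C) :
    iSupIndep fun p : ℤ × ℤ => D.E Z p.1 p.2 := (hD.graded Z).gal.submodule_iSupIndep

lemma indepH (hD : D.IsRegulators R) (Z : C) :
    iSupIndep fun p : ℤ × ℤ => D.H Z p.1 p.2 := (hD.graded Z).mot.submodule_iSupIndep

lemma ker_stab (hD : D.IsRegulators R) (M : Set ℤ) :
    IsStab D.mot.F (fun Z => (D.ker Z M : Submodule Λ (D.mot.F.obj Z))) := by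
  rintro Y Z f a ⟨h1, h2⟩
  refine ⟨hD.HM_act M f a h1, ?_⟩
  have h3 := hD.nat_apply f a
  have h4 : D.r Y a = 0 := h2
  change D.r Z (D.mot.act f a) = 0
  rw [h3, h4, map_zero]

lemma st_stab (hD : D.IsRegulators R) (M : Set ℤ) :
    IsStab D.gal.F (fun Z => (D.stM Z M : Submodule Λ (D.gal.F.obj Z))) :=
  fun _ _ f a ha => hD.stM_act M f a ha

/-- The functor of the kernels. -/
abbrev kerF (hD : D.IsRegulators R) (M : Set ℤ) : C ⥤ ModuleCat.{x} Λ :=
  sub D.mot.F _ (hD.ker_stab M)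

/-- The functor of the semistable classes. -/
abbrev stF (hD : D.IsRegulators R) (M : Set ℤ) : C ⥤ ModuleCat.{x} Λ :=
  sub D.gal.F _ (hD.st_stab M)

/-- The image of the regulators, as a family of subspaces of the values of the functor of the
semistable classes. -/
def imgS (hD : D.IsRegulators R) (M : Set ℤ) (Z : C) : Submodule Λ ((hD.stF M).obj Z) :=
  (D.img Z M).comap (D.stM Z M).subtype

lemma img_stab (hD : D.IsRegulators R) (M : Set ℤ) : IsStab (hD.stF M) (hD.imgS M) := by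
  rintro Y Z f ⟨a, ha⟩ ⟨x, hx, hxa⟩
  refine ⟨D.mot.act f x, hD.HM_act M f x hx, ?_⟩
  have h3 := hD.nat_apply f x
  refine h3.trans ?_
  change D.gal.act f (D.r Y x) = D.gal.act f a
  exact congrArg (D.gal.act f) hxa

/-- The functor of the cokernels. -/
abbrev cokF (hD : D.IsRegulators R) (M : Set ℤ) : C ⥤ ModuleCat.{x} Λ :=
  quoS (hD.stF M) (hD.imgS M) (hD.img_stab M)

lemma ker_iff (hD : D.IsRegulators R) (Z : C) (M : Set ℤ) :
    Subsingleton ((hD.kerF M).obj Z) ↔ D.Inj Z M := by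
  refine (Submodule.subsingleton_iff_eq_bot (p := D.ker Z M)).trans ?_
  exact RG.ker_iff (hD.indep Z) (hD.st_le Z) (hD.r_mem Z) M

lemma cok_iff (hD : D.IsRegulators R) (Z : C) (M : Set ℤ) :
    Subsingleton ((hD.cokF M).obj Z) ↔ D.Onto Z M := by
  refine (Submodule.Quotient.subsingleton_iff
    (p := (D.img Z M).comap (D.stM Z M).subtype)).trans ?_
  refine Iff.trans ?_ ((RG.cok_iff (hD.indep Z) (hD.st_le Z) (hD.r_mem Z) M).trans ?_)
  · exact Submodule.comap_subtype_eq_top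
  · refine forall_congr' fun i => forall_congr' fun j => imp_congr_right fun _ => ?_
    constructor
    · intro h
      refine le_antisymm (((hD.graded Z).semistable i j).2) fun y hy => ?_
      obtain ⟨x, hx, rfl⟩ := h y hy
      exact ⟨x, hx, rfl⟩
    · intro h y hy
      rw [← h] at hy
      obtain ⟨x, hx, rfl⟩ := hy
      exact ⟨x, hx, rfl⟩

/-- **The law for the kernels.** -/
theorem ker_law {T : C} [ExactPairing T T] (h : IsPow Λ R T) (hD : D.IsRegulators R)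
    (M : Set ℤ) : ∃ N : ℕ∞, RatioTo Λ T (fun n => D.kerD (tp T n) M) N ∧
      (N = 0 ↔ ∀ n, D.Inj (tp T n) M) ∧
      (∀ k : ℕ, N = k → IsMotivic Λ R T k (fun n => D.kerD (tp T n) M) ∧
        ∀ (a b : ℕ) (f : tp T a ⟶ tp T b), NumPow T k f →
          ∀ x ∈ D.ker (tp T a) M, D.mot.act f x = 0) ∧
      (N ≠ ⊤ → ∀ n, ∀ y : tp T n ⟶ tp T n, NumTriv y →
        IsNilpotent (((hD.kerF M).map y).hom : Module.End Λ ((hD.kerF M).obj (tp T n)))) := by
  obtain ⟨N, h1, h2, h3, h4⟩ := full_law h (hD.kerF M)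
  refine ⟨N, h1, h2.trans (forall_congr' fun n => hD.ker_iff _ M), fun k hk => ?_, h4⟩
  obtain ⟨h5, h6⟩ := h3 k hk
  refine ⟨h5, fun a b f hf x hx => ?_⟩
  have h7 := congrArg (fun q : (hD.kerF M).obj (tp T a) ⟶ (hD.kerF M).obj (tp T b) =>
    (q.hom ⟨x, hx⟩ : D.ker (tp T b) M).1) (h6 a b f hf)
  exact h7

/-- **The law for the cokernels.** -/
theorem cok_law {T : C} [ExactPairing T T] (h : IsPow Λ R T) (hD : D.IsRegulators R)
    (M : Set ℤ) : ∃ N : ℕ∞, RatioTo Λ T (fun n => D.cokD (tp T n) M) N ∧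
      (N = 0 ↔ ∀ n, D.Onto (tp T n) M) ∧
      (∀ k : ℕ, N = k → IsMotivic Λ R T k (fun n => D.cokD (tp T n) M) ∧
        ∀ (a b : ℕ) (f : tp T a ⟶ tp T b), NumPow T k f →
          (D.stM (tp T a) M).map (D.gal.act f) ≤ D.img (tp T b) M) ∧
      (N ≠ ⊤ → ∀ n, ∀ y : tp T n ⟶ tp T n, NumTriv y →
        IsNilpotent (((hD.cokF M).map y).hom : Module.End Λ ((hD.cokF M).obj (tp T n)))) := by
  obtain ⟨N, h1, h2, h3, h4⟩ := full_law h (hD.cokF M)
  refine ⟨N, h1, h2.trans (forall_congr' fun n => hD.cok_iff _ M), fun k hk => ?_, h4⟩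
  obtain ⟨h5, h6⟩ := h3 k hk
  refine ⟨h5, fun a b f hf => ?_⟩
  rintro _ ⟨y, hy, rfl⟩
  have h7 := congrArg (fun q : (hD.cokF M).obj (tp T a) ⟶ (hD.cokF M).obj (tp T b) =>
    (q.hom (Submodule.Quotient.mk ⟨y, hy⟩))) (h6 a b f hf)
  have h8 : (Submodule.Quotient.mk (⟨D.gal.act f y, hD.stM_act M f y hy⟩ : D.stM (tp T b) M) :
      D.stM (tp T b) M ⧸ (D.img (tp T b) M).comap (D.stM (tp T b) M).subtype) = 0 := h7
  rw [Submodule.Quotient.mk_eq_zero] at h8
  exact h8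

/-- **The explicit criterion.** -/
theorem explicit {T : C} [ExactPairing T T] (h : IsPow Λ R T) (hD : D.IsRegulators R)
    (M : Set ℤ) {m n : ℕ} (hn : 128 * (m + 1) ^ 2 * bt R T ^ (2 * m + 6) ≤ n) :
    (2 * D.kerD (tp T n) M < numRank Λ (tp T n) → D.Inj (tp T m) M) ∧
      (2 * D.cokD (tp T n) M < numRank Λ (tp T n) → D.Onto (tp T m) M) := by
  constructor
  · intro hlt
    obtain ⟨h2, h3⟩ := dimE_lt hlt
    exact (hD.ker_iff _ M).1 (explicit_criterion h (hD.kerF M) hn h2 h3)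
  · intro hlt
    obtain ⟨h2, h3⟩ := dimE_lt hlt
    exact (hD.cok_iff _ M).1 (explicit_criterion h (hD.cokF M) hn h2 h3)

end IsRegulators

end Regulators

end Pool.Agent.Zk51.RG
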