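import Pool.Agent.Zk51.RG.Law

/-!
# Nilpotence, the zero-one law, additivity
-/

set_option autoImplicit false
set_option linter.unusedSectionVars false

open CategoryTheory Limits MonoidalCategory Module Filter Topology
open Pool.Agent.Y112.SR Pool.Agent.Y112.KD Pool.Agent.N64.AF Pool.Agent.N645.AFK1
open scoped ENNReal

namespace Pool.Agent.Zk51.RG

universe v u w t x

section Dim

variable {Λ : Type t} [Field Λ] {V : Type x} [AddCommGroup V] [Module Λ V]

lemma dimE_equiv {W : Type x} [AddCommGroup W] [Module Λ W] (e : V ≃ₗ[Λ] W) :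
    dimE Λ V = dimE Λ W := by
  unfold dimE
  rw [e.rank_eq]

lemma dimE_sup {A B : Submodule Λ V} (h : A ⊓ B = ⊥) :
    dimE Λ (A ⊔ B : Submodule Λ V) = dimE Λ A + dimE Λ B := by
  have h1 := Submodule.rank_sup_add_rank_inf_eq A B
  rw [h, rank_bot, add_zero] at h1
  unfold dimE
  rw [h1, map_add]

lemma dimE_prod {W : Type x} [AddCommGroup W] [Module Λ W] :
    dimE Λ (V × W) = dimE Λ V + dimE Λ W := by
  unfold dimE
  rw [rank_prod', map_add]

/-- The dimension of a quotient of sums of independent subspaces. -/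
lemma dimE_quot {A A' B B' : Submodule Λ V} (h : A ⊓ A' = ⊥) (hB : B ≤ A) (hB' : B' ≤ A') :
    dimE Λ ((A ⊔ A' : Submodule Λ V) ⧸ (B ⊔ B').comap (A ⊔ A').subtype) =
      dimE Λ (A ⧸ B.comap A.subtype) + dimE Λ (A' ⧸ B'.comap A'.subtype) := by
  rw [← dimE_prod]
  symm
  let i : A →ₗ[Λ] (A ⊔ A' : Submodule Λ V) := Submodule.inclusion le_sup_left
  let i' : A' →ₗ[Λ] (A ⊔ A' : Submodule Λ V) := Submodule.inclusion le_sup_right
  have hi : B.comap A.subtype ≤ ((B ⊔ B').comap (A ⊔ A').subtype).comap i := by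
    intro a ha
    exact (le_sup_left : B ≤ B ⊔ B') ha
  have hi' : B'.comap A'.subtype ≤ ((B ⊔ B').comap (A ⊔ A').subtype).comap i' := by
    intro a ha
    exact (le_sup_right : B' ≤ B ⊔ B') ha
  let φ := (Submodule.mapQ _ _ i hi).coprod (Submodule.mapQ _ _ i' hi')
  refine dimE_equiv (LinearEquiv.ofBijective φ ⟨?_, ?_⟩)
  · rw [← LinearMap.ker_eq_bot, Submodule.eq_bot_iff]
    rintro ⟨a, a'⟩ h0
    obtain ⟨a, rfl⟩ := Submodule.mkQ_surjective _ a
    obtain ⟨a', rfl⟩ := Submodule.mkQ_surjective _ a'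
    have h1 : (Submodule.Quotient.mk (i a + i' a') :
        (A ⊔ A' : Submodule Λ V) ⧸ (B ⊔ B').comap (A ⊔ A').subtype) = 0 := h0
    rw [Submodule.Quotient.mk_eq_zero] at h1
    have h2 : (a : V) + a' ∈ B ⊔ B' := h1
    obtain ⟨b, hb, b', hb', h3⟩ := Submodule.mem_sup.1 h2
    have h4 : (a : V) - b = b' - a' := by
      rw [sub_eq_sub_iff_add_eq_add, ← h3]
      abel
    have h5 : (a : V) - b ∈ A ⊓ A' := by
      refine ⟨Submodule.sub_mem _ a.2 (hB hb), ?_⟩
      rw [h4]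
      exact Submodule.sub_mem _ (hB' hb') a'.2
    rw [h] at h5
    have h6 : (a : V) = b := sub_eq_zero.1 h5
    have h7 : (a' : V) = b' := by
      have h8 : (a : V) - b = 0 := h5
      rw [h4] at h8
      exact (sub_eq_zero.1 h8).symm
    refine Prod.ext ?_ ?_
    · refine (Submodule.Quotient.mk_eq_zero _).2 ?_
      change (a : V) ∈ B
      rw [h6]
      exact hb
    · refine (Submodule.Quotient.mk_eq_zero _).2 ?_
      change (a' : V) ∈ B'
      rw [h7]
      exact hb'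
  · intro y
    obtain ⟨⟨y, hy⟩, rfl⟩ := Submodule.mkQ_surjective _ y
    obtain ⟨a, ha, a', ha', rfl⟩ := Submodule.mem_sup.1 hy
    exact ⟨(Submodule.Quotient.mk ⟨a, ha⟩, Submodule.Quotient.mk ⟨a', ha'⟩), rfl⟩

/-- The sums over disjoint sets. -/
lemma sumM_union (H : ℤ → ℤ → Submodule Λ V) (M M' : Set ℤ) :
    sumM H (M ∪ M') = sumM H M ⊔ sumM H M' := by
  refine le_antisymm (sumM_le fun i j hm => ?_) (sup_le (sumM_mono H Set.subset_union_left)
    (sumM_mono H Set.subset_union_right))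
  rcases hm with hm | hm
  · exact (le_sumM H hm).trans le_sup_left
  · exact (le_sumM H hm).trans le_sup_right

lemma sumM_disjoint {E : ℤ → ℤ → Submodule Λ V} (hE : iSupIndep fun p : ℤ × ℤ => E p.1 p.2)
    {M M' : Set ℤ} (h : Disjoint M M') : sumM E M ⊓ sumM E M' = ⊥ := by
  have h1 : Disjoint (⨆ p ∈ {p : ℤ × ℤ | 2 * p.2 - p.1 ∈ M}, E p.1 p.2)
      (⨆ p ∈ {p : ℤ × ℤ | 2 * p.2 - p.1 ∈ M'}, E p.1 p.2) := by
    refine hE.disjoint_biSup_biSup ?_
    rw [Set.disjoint_left]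
    intro p hp hp'
    exact Set.disjoint_left.1 h hp hp'
  have h2 : ∀ M : Set ℤ, sumM E M ≤ ⨆ p ∈ {p : ℤ × ℤ | 2 * p.2 - p.1 ∈ M}, E p.1 p.2 := by
    intro M
    refine sumM_le fun i j hm => ?_
    exact le_iSup₂_of_le (i, j) hm le_rfl
  exact (h1.mono (h2 M) (h2 M')).eq_bot

lemma sumM_le' {H H' : ℤ → ℤ → Submodule Λ V} (h : ∀ i j, H i j ≤ H' i j) (M : Set ℤ) :
    sumM H M ≤ sumM H' M :=
  sumM_le fun i j hm => (h i j).trans (le_sumM H' hm)

end Dim

variable {C : Type u} [Category.{v} C] [Preadditive C] [MonoidalCategory C]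
  [MonoidalPreadditive C] [SymmetricCategory C] [RightRigidCategory C]
  {Λ : Type t} [Field Λ] [CharZero Λ] [Linear Λ C] [MonoidalLinear Λ C]
  {K : Type w} [Field K] [IsAlgClosed K] [Algebra Λ K] {R : SuperRealisation C K}

/-- The numerical motive of `Y` is a direct summand of a finite sum of numerical motives of objects
with the property `P`. -/
def SumOf (P : C → Prop) (Y : C) : Prop :=
  ∃ (s : ℕ) (Z : Fin s → C) (α : ∀ j, Y ⟶ Z j) (β : ∀ j, Z j ⟶ Y),
    (∀ j, P (Z j)) ∧ NumTriv (𝟙 Y - ∑ j, α j ≫ β j)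

/-- If numerically trivial endomorphisms act in a nilpotent way then a functor which vanishes on
objects which generate the numerical motive of `Y` vanishes on `Y`. -/
lemma zero_of_sumOf (F : C ⥤ ModuleCat.{x} Λ) [F.Additive] {Y : C}
    (hY : SumOf (fun Z => Subsingleton (F.obj Z)) Y)
    (hnil : ∀ y : Y ⟶ Y, NumTriv y →
      IsNilpotent ((F.map y).hom : Module.End Λ (F.obj Y))) : Subsingleton (F.obj Y) := by
  obtain ⟨s, Z, α, β, hZ, hn⟩ := hY
  have h1 : F.map (𝟙 Y - ∑ j, α j ≫ β j) = 𝟙 _ := by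
    rw [F.map_sub, F.map_sum, F.map_id]
    have h2 : ∀ j, F.map (α j ≫ β j) = 0 := by
      intro j
      have := hZ j
      rw [F.map_comp]
      ext a
      change (F.map (β j)).hom ((F.map (α j)).hom a) = 0
      rw [Subsingleton.elim ((F.map (α j)).hom a) 0, map_zero]
    rw [Finset.sum_congr rfl fun j _ => h2 j, Finset.sum_const_zero, sub_zero]
  obtain ⟨k, hk⟩ := hnil _ hn
  have h3 : ((F.map (𝟙 Y - ∑ j, α j ≫ β j)).hom : Module.End Λ (F.obj Y)) = 1 := by
    rw [h1]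
    rfl
  rw [h3, one_pow] at hk
  refine ⟨fun a b => ?_⟩
  have e : ∀ a : F.obj Y, a = 0 := by
    intro a
    have h4 := congrArg (fun q : Module.End Λ (F.obj Y) => q a) hk
    exact h4
  rw [e a, e b]

namespace Regulators

variable {D : Regulators.{v, u, t, x} Λ C}

namespace IsRegulators

lemma r_memE (hD : D.IsRegulators R) (Z : C) (M : Set ℤ) {b : D.mot.Grp Z}
    (hb : b ∈ D.HM Z M) : D.r Z b ∈ sumM (D.E Z) M := by
  have h6 : sumM (D.H Z) M ≤ (sumM (D.E Z) M).comap (D.r Z) :=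
    sumM_le fun i j hm x hx => le_sumM _ hm (hD.st_le Z i j (hD.r_mem Z i j x hx))
  exact h6 hb

lemma kerD_union (hD : D.IsRegulators R) (Z : C) {M M' : Set ℤ} (h : Disjoint M M') :
    D.kerD Z (M ∪ M') = D.kerD Z M + D.kerD Z M' := by
  have h1 : D.HM Z M ⊓ D.HM Z M' = ⊥ := sumM_disjoint (hD.indepH Z) h
  have h2 : D.ker Z M ⊓ D.ker Z M' = ⊥ := by
    rw [eq_bot_iff, ← h1]
    exact inf_le_inf inf_le_left inf_le_left
  have h3 : D.ker Z (M ∪ M') = D.ker Z M ⊔ D.ker Z M' := by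
    refine le_antisymm ?_ (sup_le ?_ ?_)
    · rintro a ⟨ha, hra⟩
      have ha' : a ∈ D.HM Z M ⊔ D.HM Z M' := by
        have := sumM_union (D.H Z) M M'
        change a ∈ sumM (D.H Z) M ⊔ sumM (D.H Z) M'
        rw [← this]
        exact ha
      obtain ⟨b, hb, c, hc, rfl⟩ := Submodule.mem_sup.1 ha'
      have h5 := hD.r_memE Z M hb
      have h5' := hD.r_memE Z M' hc
      have h7 : D.r Z b + D.r Z c = 0 := by
        rw [← map_add]
        exact hra
      have h8 : D.r Z b ∈ sumM (D.E Z) M ⊓ sumM (D.E Z) M' := by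
        refine ⟨h5, ?_⟩
        rw [eq_neg_of_add_eq_zero_left h7]
        exact Submodule.neg_mem _ h5'
      rw [sumM_disjoint (hD.indep Z) h] at h8
      have h9 : D.r Z b = 0 := h8
      rw [h9, zero_add] at h7
      exact Submodule.mem_sup.2 ⟨b, ⟨hb, h9⟩, c, ⟨hc, h7⟩, rfl⟩
    · exact inf_le_inf (sumM_mono _ Set.subset_union_left) le_rfl
    · exact inf_le_inf (sumM_mono _ Set.subset_union_right) le_rfl
  unfold kerD
  rw [h3, dimE_sup h2]

lemma cokD_union (hD : D.IsRegulators R) (Z : C) {M M' : Set ℤ} (h : Disjoint M M') :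
    D.cokD Z (M ∪ M') = D.cokD Z M + D.cokD Z M' := by
  have h1 : D.stM Z M ⊓ D.stM Z M' = ⊥ := by
    rw [eq_bot_iff, ← sumM_disjoint (hD.indep Z) h]
    exact inf_le_inf (sumM_le' (hD.st_le Z) M) (sumM_le' (hD.st_le Z) M')
  have hle : ∀ M, D.img Z M ≤ D.stM Z M := by
    intro M
    unfold img
    rw [Submodule.map_le_iff_le_comap]
    exact sumM_le fun i j hm x hx => le_sumM _ hm (hD.r_mem Z i j x hx)
  have h2 : D.stM Z (M ∪ M') = D.stM Z M ⊔ D.stM Z M' := sumM_union (D.st Z) M M'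
  have h3 : D.img Z (M ∪ M') = D.img Z M ⊔ D.img Z M' := by
    unfold img
    rw [← Submodule.map_sup]
    congr 1
    exact sumM_union (D.H Z) M M'
  have h4 := dimE_quot h1 (hle M) (hle M')
  unfold cokD dimQuot
  rw [← h4, h3, h2]

end IsRegulators

end Regulators

end Pool.Agent.Zk51.RG
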